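import Pool.Agent.V11120.LD.Data

/-!
# The local dimension of the Boolean lattice with six atoms is at most five
-/

set_option autoImplicit false
set_option maxRecDepth 100000

namespace Pool.Agent.Results.MP_666a49_co.LocalDimSix

open Pool.Agent.V11120.LD

/-- A partial linear extension of the finite poset `P`: a linear order on a subset `carrier` of
`P`, given by distinct positions `pos` of its elements, which extends the order of `P`. -/
structure Ple (P : Type) [PartialOrder P] where
  carrier : Set P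
  pos : P → ℕ
  inj : Set.InjOn pos carrier
  mono : ∀ x ∈ carrier, ∀ y ∈ carrier, x < y → pos x < pos y

/-- `x` comes before `y` in the partial linear extension `L` (and both belong to it). -/
def Ple.Before {P : Type} [PartialOrder P] (L : Ple P) (x y : P) : Prop :=
  x ∈ L.carrier ∧ y ∈ L.carrier ∧ L.pos x < L.pos y

/-- A local realizer of `P` (a finite family of partial linear extensions). -/
structure IsLocalRealizer {P : Type} [PartialOrder P] {m : ℕ} (L : Fin m → Ple P) : Prop where
  comparable : ∀ x y, x < y → ∃ i, (L i).Before x y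
  incomparable : ∀ x y, ¬ x ≤ y → ¬ y ≤ x → ∃ i j, (L i).Before x y ∧ (L j).Before y x

/-- The local dimension of `P`. -/
noncomputable def ldim (P : Type) [PartialOrder P] : ℕ :=
  sInf {d | ∃ (m : ℕ) (L : Fin m → Ple P), IsLocalRealizer L ∧
    ∀ x, {i | x ∈ (L i).carrier}.ncard ≤ d}

namespace Proof

/-- decoding -/
def dec (a : Fin 64) : Finset (Fin 6) := Finset.univ.filter (fun i => a.1.testBit i.1 = true)

/-- encoding -/
def enc (A : Finset (Fin 6)) : Fin 64 := Fin.ofNat 64 (∑ i ∈ A, 2 ^ i.1)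

theorem enc_dec : ∀ a : Fin 64, enc (dec a) = a := by decide +kernel

theorem dec_surj : ∀ A : Finset (Fin 6), ∃ a, dec a = A := by decide +kernel

theorem dec_le : ∀ a b : Fin 64, dec a ≤ dec b ↔ a.1 &&& b.1 = a.1 := by decide +kernel

theorem dec_enc (A : Finset (Fin 6)) : dec (enc A) = A := by
  obtain ⟨a, rfl⟩ := dec_surj A
  rw [enc_dec]

theorem le_iff (A B : Finset (Fin 6)) : A ≤ B ↔ (enc A).1 &&& (enc B).1 = (enc A).1 := by
  rw [← dec_le, dec_enc, dec_enc]

theorem enc_inj {A B : Finset (Fin 6)} (h : enc A = enc B) : A = B := by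
  rw [← dec_enc A, ← dec_enc B, h]

theorem t_mono : ∀ i : Fin 8, ∀ a b : Fin 64, 0 < tb i.1 a.1 → 0 < tb i.1 b.1 →
    a.1 &&& b.1 = a.1 → a ≠ b → tb i.1 a.1 < tb i.1 b.1 := by decide +kernel

theorem t_inj : ∀ i : Fin 8, ∀ a b : Fin 64, 0 < tb i.1 a.1 → tb i.1 a.1 = tb i.1 b.1 → a = b := by
  decide +kernel

theorem t_main : ∀ a b : Fin 64, ¬ (b.1 &&& a.1 = b.1) →
    ∃ i : Fin 8, 0 < tb i.1 a.1 ∧ 0 < tb i.1 b.1 ∧ tb i.1 a.1 < tb i.1 b.1 := by decide +kernel

theorem t_card : ∀ a : Fin 64, (Finset.univ.filter (fun i : Fin 8 => 0 < tb i.1 a.1)).card ≤ 5 := by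
  decide +kernel

/-- the partial linear extensions -/
def L (i : Fin 8) : Ple (Finset (Fin 6)) where
  carrier := {A | 0 < tb i.1 (enc A).1}
  pos A := tb i.1 (enc A).1
  inj := by
    intro A hA B _ h
    exact enc_inj (t_inj i _ _ hA h)
  mono := by
    intro A hA B hB h
    refine t_mono i _ _ hA hB ((le_iff A B).1 h.le) ?_
    intro he
    exact h.ne (enc_inj he)

theorem before {A B : Finset (Fin 6)} (h : ¬ B ≤ A) : ∃ i, (L i).Before A B := by
  rw [le_iff] at h
  obtain ⟨i, h1, h2, h3⟩ := t_main _ _ h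
  exact ⟨i, h1, h2, h3⟩

theorem realizer : IsLocalRealizer L where
  comparable := fun _ _ h => before (not_le_of_gt h)
  incomparable := by
    intro x y h1 h2
    obtain ⟨i, hi⟩ := before h2
    obtain ⟨j, hj⟩ := before h1
    exact ⟨i, j, hi, hj⟩

theorem ldim_le : ldim (Finset (Fin 6)) ≤ 5 := by
  apply Nat.sInf_le
  refine ⟨8, L, realizer, ?_⟩
  intro A
  have h1 : {i | A ∈ (L i).carrier} =
      ↑(Finset.univ.filter (fun i : Fin 8 => 0 < tb i.1 (enc A).1)) := by
    ext i
    simp only [Finset.coe_filter, Finset.mem_univ, true_and]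
    rfl
  rw [h1, Set.ncard_coe_finset]
  exact t_card _

end Proof

/-- **The local dimension of the Boolean lattice of the subsets of an `n`-element set is not
always `n`**: for `n = 6` it is at most `5`. -/
theorem result : ∃ n : ℕ, 1 ≤ n ∧ ldim (Finset (Fin n)) < n :=
  ⟨6, by norm_num, lt_of_le_of_lt Proof.ldim_le (by norm_num)⟩

end Pool.Agent.Results.MP_666a49_co.LocalDimSix
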